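import Pool.Agent.HexW.Shift
import Pool.Agent.W47.Base

set_option autoImplicit false

namespace HexW

open Complex Finset ENNReal Filter Topology HexObs

/-- walks from v that leave Ω neither upwards nor downwards and avoid X. -/
def LatA (Ω X : Set Pt) (v d0 : Pt) : Set (List Bool) :=
  {t | Saw (Ω \ X) v d0 t ∧ tip v d0 t ∉ Ω ∧ dx d0 t t.length ≠ d0 ∧ dx d0 t t.length ≠ -d0}

lemma latA_sub {v0 d0 : Pt} (h0 : d0 ∈ dirs) {T L : ℕ} (hT : 1 ≤ T) {k : ℤ} (hk : |k| < L) (X : Set Pt) :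
    LatA (trap v0 d0 T L) X (foot v0 d0 k) d0 ⊆
      Lat (trap v0 d0 T L) ∅ true (foot v0 d0 k) d0 ∪ Lat (trap v0 d0 T L) ∅ false (foot v0 d0 k) d0 := by
  rintro t ⟨h1, h2, h3, h4⟩
  have h5 : Saw (trap v0 d0 T L \ ∅) (foot v0 d0 k) d0 t := h1.mono (Set.sdiff_subset_sdiff_right (Set.empty_subset _))
  rcases foot_exit h0 hT hk (h1.mono Set.sdiff_subset) h2 with ⟨h, _⟩ | ⟨h, _⟩ | ⟨b, h, _⟩
  · exact absurd h h4
  · exact absurd h h3
  · cases b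
    · exact Or.inr ⟨h5, h2, h⟩
    · exact Or.inl ⟨h5, h2, h⟩

lemma latA_le {v0 d0 : Pt} (h0 : d0 ∈ dirs) {T L : ℕ} (hT : 1 ≤ T) {k : ℤ} (hk : |k| < L) (X : Set Pt) :
    gf (LatA (trap v0 d0 T L) X (foot v0 d0 k) d0) ≤
      gf (Lat (trap v0 d0 T L) ∅ true (foot v0 d0 k) d0) + gf (Lat (trap v0 d0 T L) ∅ false (foot v0 d0 k) d0) :=
  (gf_mono (latA_sub h0 hT hk X)).trans (gf_union_le _ _)

/-- the error terms disappear. -/
lemma err_tendsto {v0 d0 : Pt} (h0 : d0 ∈ dirs) {T N : ℕ} (hT : 1 ≤ T) {a b k : ℤ} (ha : |a| < N) (hb : |b| < N)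
    (hk : |k| < N) : Tendsto (fun n => Q2 (trap v0 d0 T (n + N)) v0 d0 a b
      (fun Z => LatA (trap v0 d0 T (n + N)) Z (foot v0 d0 k) d0) ∅) atTop (𝓝 0) := by
  have hN : ∀ {j : ℤ}, |j| < N → ∀ n : ℕ, |j| < ((n + N : ℕ) : ℤ) := by
    intro j hj n
    push_cast
    linarith
  have h1 : Tendsto (fun n => gf (Lat (trap v0 d0 T (n + N)) ∅ true (foot v0 d0 k) d0) +
      gf (Lat (trap v0 d0 T (n + N)) ∅ false (foot v0 d0 k) d0)) atTop (𝓝 (0 + 0)) :=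
    (lat_tendsto h0 hT hk true ∅).add (lat_tendsto h0 hT hk false ∅)
  rw [add_zero] at h1
  refine tendsto_of_tendsto_of_tendsto_of_le_of_le tendsto_const_nhds h1 (fun _ => zero_le) ?_
  intro n
  have hB : BT T ≤ 1 := BT_le_one hT
  have e1 : ∀ {j : ℤ}, |j| < N → ∀ Y, gf (Br (trap v0 d0 T (n + N)) Y (foot v0 d0 j) d0) ≤ 1 :=
    fun hj Y => (gf_Br_trap_le h0 hT (hN hj n) Y).trans hB
  have e2 := fun Y => overBr_le (Ω := trap v0 d0 T (n + N)) (v := foot v0 d0 b) (d0 := d0)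
    (F := fun Z => gf (LatA (trap v0 d0 T (n + N)) Z (foot v0 d0 k) d0)) (fun Z => latA_le h0 hT (hN hk n) Z)
    (e1 hb) Y
  have e3 := overBr_le (Ω := trap v0 d0 T (n + N)) (v := foot v0 d0 a) (d0 := d0) e2 (e1 ha) ∅
  rw [mul_one, mul_one] at e3
  exact e3

lemma up_mem : up ∈ dirs := by decide

lemma up_P2 {v0 d0 : Pt} (h0 : d0 ∈ dirs) {T N : ℕ} (hT : 1 ≤ T) {a b : ℤ} (ha : |a| < N) (hb : |b| < N) :
    Up (fun n => P2 (trap v0 d0 T (n + N)) v0 d0 a b) (P2 (strip v0 d0 T) v0 d0 a b) :=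
  up_overBr (fun X => inc_Br h0 hT ha X) (up_gf (fun X => inc_Br h0 hT hb X))

lemma up_P3 {v0 d0 : Pt} (h0 : d0 ∈ dirs) {T N : ℕ} (hT : 1 ≤ T) {a b c : ℤ} (ha : |a| < N) (hb : |b| < N)
    (hc : |c| < N) : Up (fun n => P3 (trap v0 d0 T (n + N)) v0 d0 a b c) (P3 (strip v0 d0 T) v0 d0 a b c) :=
  up_overBr (fun X => inc_Br h0 hT ha X) (up_P2 h0 hT hb hc)

lemma up_Q2 {v0 d0 : Pt} (h0 : d0 ∈ dirs) {T N : ℕ} (hT : 1 ≤ T) {a b : ℤ} (ha : |a| < N) (hb : |b| < N)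
    {P : ℕ → Set Pt → Set (List Bool)} {Q : Set Pt → Set (List Bool)} (h : ∀ X, Inc (fun n => P n X) (Q X)) :
    Up (fun n => Q2 (trap v0 d0 T (n + N)) v0 d0 a b (P n)) (Q2 (strip v0 d0 T) v0 d0 a b Q) :=
  up_overBr (fun X => inc_Br h0 hT ha X) (up_overBr (fun X => inc_Br h0 hT hb X) (up_gf h))

/-! finiteness -/

lemma P2_strip_le {v0 d0 : Pt} (h0 : d0 ∈ dirs) {T : ℕ} (hT : 1 ≤ T) (a b : ℤ) (X : Set Pt) :
    P2 (strip v0 d0 T) v0 d0 a b X ≤ 1 := by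
  have hB : BT T ≤ 1 := BT_le_one hT
  have h := overBr_le (Ω := strip v0 d0 T) (v := foot v0 d0 a) (d0 := d0)
    (F := fun Y => gf (Br (strip v0 d0 T) Y (foot v0 d0 b) d0)) (c := 1) (B := 1)
    (fun Y => (gf_Br_le_one h0 hT b Y).trans hB) (fun Y => (gf_Br_le_one h0 hT a Y).trans hB) X
  rw [mul_one] at h
  exact h

lemma P3_strip_le {v0 d0 : Pt} (h0 : d0 ∈ dirs) {T : ℕ} (hT : 1 ≤ T) (a b c : ℤ) (X : Set Pt) :
    P3 (strip v0 d0 T) v0 d0 a b c X ≤ 1 := by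
  have hB : BT T ≤ 1 := BT_le_one hT
  have h := overBr_le (Ω := strip v0 d0 T) (v := foot v0 d0 a) (d0 := d0)
    (F := fun Y => P2 (strip v0 d0 T) v0 d0 b c Y) (c := 1) (B := 1)
    (fun Y => P2_strip_le h0 hT b c Y) (fun Y => (gf_Br_le_one h0 hT a Y).trans hB) X
  rw [mul_one] at h
  exact h

lemma Q2_strip_le {v0 d0 : Pt} (h0 : d0 ∈ dirs) {T : ℕ} (hT : 1 ≤ T) (a b : ℤ) {Q : Set Pt → Set (List Bool)}
    {c : ℝ≥0∞} (hQ : ∀ Z, gf (Q Z) ≤ c) (X : Set Pt) : Q2 (strip v0 d0 T) v0 d0 a b Q X ≤ c := by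
  have hB : BT T ≤ 1 := BT_le_one hT
  have e2 := fun Y => overBr_le (Ω := strip v0 d0 T) (v := foot v0 d0 b) (d0 := d0)
    (F := fun Z => gf (Q Z)) hQ (fun Y => (gf_Br_le_one h0 hT b Y).trans hB) Y
  have e3 := overBr_le (Ω := strip v0 d0 T) (v := foot v0 d0 a) (d0 := d0) e2
    (fun Y => (gf_Br_le_one h0 hT a Y).trans hB) X
  rw [mul_one, mul_one] at e3
  exact e3

lemma gf_Dn_le {v0 d0 : Pt} (h0 : d0 ∈ dirs) {T : ℕ} (k : ℤ) (X : Set Pt) :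
    gf (Dn (strip v0 d0 T) X (foot v0 d0 k) d0) ≤ AT T := by
  rw [← gf_A h0 (foot v0 d0 k) T]
  apply gf_mono
  rintro t ⟨h1, h2, h3⟩
  rw [strip_foot]
  exact ⟨h1.mono Set.sdiff_subset, h2, h3⟩

/-- THE LIMIT: identity T3 in the strip from the inequality in finite domains. -/
theorem T3_of_fin
    (hfin : ∀ (Om : Finset Pt) (v0 d0 : Pt) (d : ℕ), 1 ≤ d →
      (∀ k : ℤ, k = 0 ∨ k = 1 ∨ k = 1 + d → GoodDom Om (foot v0 d0 k) d0) →
      Real.sin (Real.pi / 8) * ((P2 (Om : Set Pt) v0 d0 0 1 ∅).toReal - (P3 (Om : Set Pt) v0 d0 0 1 (1 + d) ∅).toReal) -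
        (Q2 (Om : Set Pt) v0 d0 0 1 (fun Z => DnL (Om : Set Pt) Z (foot v0 d0 (1 + d)) d0) ∅).toReal +
        (Q2 (Om : Set Pt) v0 d0 0 1 (fun Z => DnR (Om : Set Pt) Z (foot v0 d0 (1 + d)) d0) ∅).toReal / Real.sqrt 2 ≤
      Real.sin (3 * Real.pi / 8) * ((P2 (Om : Set Pt) v0 d0 0 (1 + d) ∅).toReal -
        (P2 (Om : Set Pt) v0 d0 1 (1 + d) ∅).toReal) +
        (Q2 (Om : Set Pt) v0 d0 1 (1 + d) (fun Z => LatA (Om : Set Pt) Z (foot v0 d0 0) d0) ∅).toReal +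
        (Q2 (Om : Set Pt) v0 d0 0 1 (fun Z => LatA (Om : Set Pt) Z (foot v0 d0 (1 + d)) d0) ∅).toReal)
    {T : ℕ} (hT : 1 ≤ T) {d : ℕ} (hd : 1 ≤ d) :
    Real.sin (Real.pi / 8) * ((Pi2 T 1).toReal - (Pi3 T d).toReal) - (Ain T d).toReal +
        (Aout T d).toReal / Real.sqrt 2 ≤
    Real.sin (3 * Real.pi / 8) * ((Pi2 T (d + 1)).toReal - (Pi2 T d).toReal) := by
  have h0 := up_mem
  set N := d + 2 with hN
  have k0 : |(0 : ℤ)| < (N : ℤ) := by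
    rw [abs_zero, hN]
    push_cast
    positivity
  have k1 : |(1 : ℤ)| < (N : ℤ) := by
    rw [abs_one, hN]
    push_cast
    have : (1 : ℤ) ≤ d := by exact_mod_cast hd
    linarith
  have kd : |(1 + d : ℤ)| < (N : ℤ) := by
    rw [abs_of_nonneg (by positivity), hN]
    push_cast
    linarith
  have hN' : ∀ {j : ℤ}, |j| < N → ∀ n : ℕ, |j| < ((n + N : ℕ) : ℤ) := by
    intro j hj n
    push_cast
    linarith
  -- finiteness
  have hA : AT T ≠ ∞ := AT_ne_top hT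
  have t01 := ne_top_of_le_ne_top ENNReal.one_ne_top (P2_strip_le (v0 := oo) h0 hT 0 1 ∅)
  have t0d := ne_top_of_le_ne_top ENNReal.one_ne_top (P2_strip_le (v0 := oo) h0 hT 0 (1 + d) ∅)
  have t1d := ne_top_of_le_ne_top ENNReal.one_ne_top (P2_strip_le (v0 := oo) h0 hT 1 (1 + d) ∅)
  have t3 := ne_top_of_le_ne_top ENNReal.one_ne_top (P3_strip_le (v0 := oo) h0 hT 0 1 (1 + d) ∅)
  have tL : Ain T d ≠ ∞ := ne_top_of_le_ne_top hA
    (Q2_strip_le h0 hT 0 1 (fun Z => (gf_mono (fun _ ht => ht.1)).trans (gf_Dn_le h0 (1 + d) Z)) ∅)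
  have tR : Aout T d ≠ ∞ := ne_top_of_le_ne_top hA
    (Q2_strip_le h0 hT 0 1 (fun Z => (gf_mono (fun _ ht => ht.1)).trans (gf_Dn_le h0 (1 + d) Z)) ∅)
  -- limits
  have l01 := (ENNReal.tendsto_toReal t01).comp ((up_P2 (v0 := oo) h0 hT k0 k1).tendsto ∅)
  have l0d := (ENNReal.tendsto_toReal t0d).comp ((up_P2 (v0 := oo) h0 hT k0 kd).tendsto ∅)
  have l1d := (ENNReal.tendsto_toReal t1d).comp ((up_P2 (v0 := oo) h0 hT k1 kd).tendsto ∅)
  have l3 := (ENNReal.tendsto_toReal t3).comp ((up_P3 (v0 := oo) h0 hT k0 k1 kd).tendsto ∅)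
  have lL := (ENNReal.tendsto_toReal tL).comp ((up_Q2 (v0 := oo) h0 hT k0 k1
    (fun X => inc_DnL h0 hT kd X)).tendsto ∅)
  have lR := (ENNReal.tendsto_toReal tR).comp ((up_Q2 (v0 := oo) h0 hT k0 k1
    (fun X => inc_DnR h0 hT kd X)).tendsto ∅)
  have le0 := (ENNReal.tendsto_toReal ENNReal.zero_ne_top).comp (err_tendsto (v0 := oo) h0 hT k1 kd k0)
  have le1 := (ENNReal.tendsto_toReal ENNReal.zero_ne_top).comp (err_tendsto (v0 := oo) h0 hT k0 k1 kd)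
  have hleft := (((l01.sub l3).const_mul (Real.sin (Real.pi / 8))).sub lL).add (lR.div_const (Real.sqrt 2))
  have hright := (((l0d.sub l1d).const_mul (Real.sin (3 * Real.pi / 8))).add le0).add le1
  have hlim := le_of_tendsto_of_tendsto' hleft hright (by
    intro n
    have h := hfin (trapF (v0 := oo) h0 T (n + N)) oo up d hd (by
      rintro k (rfl | rfl | rfl)
      · exact trap_good_foot h0 hT (hN' k0 n)
      · exact trap_good_foot h0 hT (hN' k1 n)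
      · exact trap_good_foot h0 hT (hN' kd n))
    rw [trapF_coe] at h
    exact h)
  have e1 : Pi2 T 1 = P2 (strip oo up T) oo up 0 1 ∅ := by
    unfold Pi2 St
    push_cast
    rfl
  have e2 : Pi2 T (d + 1) = P2 (strip oo up T) oo up 0 (1 + d) ∅ := by
    unfold Pi2 St
    push_cast
    rw [add_comm (d : ℤ) 1]
  have e3 : Pi2 T d = P2 (strip oo up T) oo up 1 (1 + d) ∅ := by
    unfold Pi2 St
    rw [← P2_trans oo up T 0 d 1, zero_add, add_comm (d : ℤ) 1]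
  rw [e1, e2, e3]
  simp only [ENNReal.toReal_zero, add_zero] at hlim
  exact hlim

end HexW
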