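import Pool.Agent.HexW.Lim

set_option autoImplicit false

namespace HexW

open Complex Finset ENNReal Filter Topology HexObs

/-- a step that leaves the trapezoid. -/
lemma trap_step {v0 d0 : Pt} (h0 : d0 ∈ dirs) {T L : ℕ} {v d : Pt} (hv : v ∈ trap v0 d0 T L) (hdm : d ∈ dirs)
    (hhex : IsHex v0 d0 (v + d)) (hout : v + d ∉ trap v0 d0 T L) :
    (d = -d0 ∧ ip (v + d - v0) d0 = 0) ∨
    (d = d0 ∧ ip (v + d - v0) d0 = 3 * T + 2) ∨
    ∃ b : Bool, d = turn b d0 ∧ ip (v + d - v0) (turn b d0) = 3 * L ∧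
      (v + d) ∈ strip v0 d0 T ∧ ∃ j : ℕ, 1 ≤ j ∧ j ≤ T ∧ ip (v + d - v0) d0 = 3 * j := by
  obtain ⟨⟨hvhex, l1, l2⟩, l3, l4⟩ := hv
  have e0 : v + d - v0 = (v - v0) + d := by abel
  -- the two lateral cases
  have lateral : ∀ b : Bool, ¬ ip (v + d - v0) (turn b d0) < 3 * L →
      ip (v - v0) (turn b d0) < 3 * L →
      d = turn b d0 ∧ ip (v + d - v0) (turn b d0) = 3 * L ∧
      (v + d) ∈ strip v0 d0 T ∧ ∃ j : ℕ, 1 ≤ j ∧ j ≤ T ∧ ip (v + d - v0) d0 = 3 * j := by
    intro b hb hb'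
    have hside : IsSide v0 d0 (v0 + (L : ℤ) • (d0 + turn b d0), turn b d0) := by
      refine ⟨turn_mem h0 b, Or.inl ⟨?_, cl_turn b d0⟩⟩
      simp only [cl_add, cl_smul, cl_turn]
      ring
    have e3 : ∀ w : Pt, ip (v0 + (L : ℤ) • (d0 + turn b d0) - w) (turn b d0) = 3 * L - ip (w - v0) (turn b d0) := by
      intro w
      have : v0 + (L : ℤ) • (d0 + turn b d0) - w = (L : ℤ) • (d0 + turn b d0) - (w - v0) := by abel
      rw [this, ip_sub_left, ip_smul_left, ip_add_left, ip_turn_self h0, ip_turn_turn h0]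
      ring
    obtain ⟨s1, s2, s3⟩ := side_step hside hvhex hdm (by rw [e3]; linarith) (by
      rw [e3]
      push Not at hb
      linarith)
    simp only [] at s1 s2 s3
    rw [e3] at s2 s3
    have k1 : ip (v + d - v0) d0 = ip (v - v0) d0 + 1 := by
      rw [e0, ip_add_left, s1, ip_comm (turn b d0), ip_turn_self h0]
    -- class of v
    have hclv : cl v = cl v0 + cl d0 := by
      have hc : cl (v + d) = cl v - cl d0 := by
        rw [cl_add, s1, cl_turn]
        ring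
      have h3 : (3 : ZMod 3) = 0 := three_eq
      rcases hhex with hh | hh
      · rw [hh] at hc
        linear_combination -hc
      · exfalso
        rw [hh] at hc
        have hne := cl_dir_ne h0
        rcases hvhex with hv' | hv'
        · rw [hv'] at hc
          apply hne
          linear_combination -hc + (cl d0) * h3
        · rw [hv'] at hc
          apply hne
          linear_combination hc
    have hclt : cl (v + d) = cl v0 := by
      rw [cl_add, s1, cl_turn, hclv]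
      ring
    have hmod : ((ip (v + d - v0) d0 : ℤ) : ZMod 3) = ((0 : ℤ) : ZMod 3) := by
      rw [ip_mod, cl_sub, hclt]
      push_cast
      ring
    have hdvd : (3 : ℤ) ∣ 0 - ip (v + d - v0) d0 := (ZMod.intCast_eq_intCast_iff_dvd_sub _ _ 3).1 hmod
    have hmem : v + d ∈ strip v0 d0 T := by
      refine ⟨hhex, by linarith, ?_⟩
      rw [k1]
      by_contra hcon
      have : ip (v - v0) d0 = 3 * T + 1 := by omega
      rw [k1, this] at hdvd
      omega
    refine ⟨s1, by linarith, hmem, ?_⟩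
    obtain ⟨q, hq⟩ := hdvd
    refine ⟨(-q).toNat, ?_, ?_, ?_⟩
    · have h1 := hmem.2.1
      omega
    · have h1 := hmem.2.2
      omega
    · have h1 := hmem.2.1
      omega
  by_cases c1 : 0 < ip (v + d - v0) d0
  · by_cases c2 : ip (v + d - v0) d0 < 3 * T + 2
    · right
      right
      by_cases c3 : ip (v + d - v0) (turn true d0) < 3 * L
      · by_cases c4 : ip (v + d - v0) (turn false d0) < 3 * L
        · exact absurd ⟨⟨hhex, c1, c2⟩, c3, c4⟩ hout
        · exact ⟨false, lateral false c4 l4⟩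
      · exact ⟨true, lateral true c3 l3⟩
    · right
      left
      have hside : IsSide v0 d0 (v0 + d0 + (T : ℤ) • (d0 + rotL d0), d0) :=
        trapS_side h0 T L _ (by simp [trapS])
      have e2 : ∀ w : Pt, ip (v0 + d0 + (T : ℤ) • (d0 + rotL d0) - w) d0 = 3 * T + 2 - ip (w - v0) d0 := by
        intro w
        have : v0 + d0 + (T : ℤ) • (d0 + rotL d0) - w = d0 + (T : ℤ) • (d0 + rotL d0) - (w - v0) := by abel
        rw [this, ip_sub_left, ip_add_left, ip_smul_left, ip_add_left, ip_self_dir h0, ip_comm (rotL d0),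
          ip_rotL_self h0]
        ring
      obtain ⟨s1, s2, s3⟩ := side_step hside hvhex hdm (by rw [e2]; linarith) (by
        rw [e2]
        push Not at c2
        linarith)
      simp only [] at s1 s2 s3
      rw [e2] at s3
      exact ⟨s1, by linarith⟩
  · left
    have hside : IsSide v0 d0 (v0, -d0) := trapS_side h0 T L _ (by simp [trapS])
    have e1 : ∀ w : Pt, ip (v0 - w) (-d0) = ip (w - v0) d0 := by
      intro w
      rw [ip_neg_right, ← ip_neg_left]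
      congr 1
      abel
    obtain ⟨s1, s2, s3⟩ := side_step hside hvhex hdm (by rw [e1]; exact l1) (by
      rw [e1]
      push Not at c1
      exact c1)
    simp only [] at s1 s2 s3
    rw [e1] at s3
    exact ⟨s1, s3⟩

/-! the feet -/

lemma ip_hz (d0 : Pt) : ip (hz d0) d0 = 0 := by
  unfold ip hz rotR
  simp only [Prod.fst_add, Prod.snd_add]
  ring

lemma cl_hz (d0 : Pt) : cl (hz d0) = 0 := by
  unfold hz
  simp only [cl_add, cl_rotR]
  ring

lemma hz_turn : ∀ d ∈ dirs, ip (hz d) (turn true d) = -3 ∧ ip (hz d) (turn false d) = 3 := by decide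

lemma cl_foot (v0 d0 : Pt) (k : ℤ) : cl (foot v0 d0 k) = cl v0 := by
  unfold foot
  rw [cl_add, cl_smul, cl_hz]
  ring

lemma foot_sub (v0 d0 : Pt) (k : ℤ) : foot v0 d0 k - v0 = k • hz d0 := by
  unfold foot
  abel

lemma ip_foot (v0 d0 : Pt) (k : ℤ) : ip (foot v0 d0 k - v0) d0 = 0 := by
  rw [foot_sub, ip_smul_left, ip_hz, mul_zero]

lemma ip_foot_turn {d0 : Pt} (h0 : d0 ∈ dirs) (v0 : Pt) (k : ℤ) (b : Bool) :
    ip (foot v0 d0 k - v0) (turn b d0) = - (3 * sgn b * k) := by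
  rw [foot_sub, ip_smul_left]
  have h := hz_turn d0 h0
  cases b
  · rw [h.2]
    unfold sgn
    simp
    ring
  · rw [h.1]
    unfold sgn
    simp
    ring

lemma ip_sub_sub (p v w r : Pt) : ip (p - w) r = ip (p - v) r - ip (w - v) r := by
  have : p - w = (p - v) - (w - v) := by abel
  rw [this, ip_sub_left]

lemma strip_foot (v0 d0 : Pt) (T : ℕ) (k : ℤ) : strip (foot v0 d0 k) d0 T = strip v0 d0 T := by
  ext p
  unfold strip IsHex
  simp only [Set.mem_ofPred_eq, cl_foot]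
  rw [ip_sub_sub p v0 (foot v0 d0 k) d0, ip_foot, sub_zero]

lemma hex_foot (v0 d0 : Pt) (k : ℤ) (t : List Bool) (i : ℕ) : IsHex v0 d0 (vx (foot v0 d0 k) d0 t i) := by
  have h := vx_hex (foot v0 d0 k) d0 t i
  unfold IsHex at h ⊢
  rwa [cl_foot] at h

lemma foot_first {d0 : Pt} (h0 : d0 ∈ dirs) (v0 : Pt) {T L : ℕ} (hT : 1 ≤ T) {k : ℤ} (hk : |k| < L) :
    foot v0 d0 k + d0 ∈ trap v0 d0 T L := by
  have e : foot v0 d0 k + d0 - v0 = (foot v0 d0 k - v0) + d0 := by abel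
  have hT' : (1 : ℤ) ≤ T := by exact_mod_cast hT
  obtain ⟨k1, k2⟩ := abs_lt.1 hk
  refine ⟨⟨Or.inr (by rw [cl_add, cl_foot]), ?_, ?_⟩, ?_, ?_⟩
  · rw [e, ip_add_left, ip_foot, ip_self_dir h0]
    norm_num
  · rw [e, ip_add_left, ip_foot, ip_self_dir h0]
    linarith
  · have := ip_foot_turn h0 v0 k true
    have h2 := ip_turn_self h0 true
    simp only [turn, if_true, sgn] at this h2
    rw [e, ip_add_left, this, h2]
    linarith
  · have := ip_foot_turn h0 v0 k false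
    have h2 := ip_turn_self h0 false
    simp only [turn, Bool.false_eq_true, if_false, sgn] at this h2
    rw [e, ip_add_left, this, h2]
    linarith

/-- the last step of a walk from a foot that leaves the trapezoid. -/
lemma foot_exit {v0 d0 : Pt} (h0 : d0 ∈ dirs) {T L : ℕ} (hT : 1 ≤ T) {k : ℤ} (hk : |k| < L) {t : List Bool}
    (hs : Saw (trap v0 d0 T L) (foot v0 d0 k) d0 t) (hout : tip (foot v0 d0 k) d0 t ∉ trap v0 d0 T L) :
    (dx d0 t t.length = -d0 ∧ ip (tip (foot v0 d0 k) d0 t - v0) d0 = 0) ∨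
    (dx d0 t t.length = d0 ∧ ip (tip (foot v0 d0 k) d0 t - v0) d0 = 3 * T + 2) ∨
    ∃ b : Bool, dx d0 t t.length = turn b d0 ∧ ip (tip (foot v0 d0 k) d0 t - v0) (turn b d0) = 3 * L ∧
      (tip (foot v0 d0 k) d0 t) ∈ strip v0 d0 T ∧
        ∃ j : ℕ, 1 ≤ j ∧ j ≤ T ∧ ip (tip (foot v0 d0 k) d0 t - v0) d0 = 3 * j := by
  have hlen : 1 ≤ t.length := by
    by_contra hcon
    have hz : t.length = 0 := by omega
    have : t = [] := List.length_eq_zero_iff.1 hz
    rw [this] at hout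
    exact hout (foot_first h0 v0 hT hk)
  have hlast := hs.mem _ hlen le_rfl
  have h1 := hex_foot v0 d0 k t (t.length + 1)
  rw [vx_succ] at h1
  have hte := tip_eq (v0 := foot v0 d0 k) (d0 := d0) t
  rw [hte] at hout ⊢
  exact trap_step h0 hlast (dx_mem h0 t _) h1 hout

/-- a walk from a foot that leaves the trapezoid upwards or downwards leaves the strip. -/
lemma tip_iff {v0 d0 : Pt} (h0 : d0 ∈ dirs) {T L : ℕ} (hT : 1 ≤ T) {k : ℤ} (hk : |k| < L) {t : List Bool}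
    (hs : Saw (trap v0 d0 T L) (foot v0 d0 k) d0 t) (hd : dx d0 t t.length = d0 ∨ dx d0 t t.length = -d0) :
    tip (foot v0 d0 k) d0 t ∉ trap v0 d0 T L ↔ tip (foot v0 d0 k) d0 t ∉ strip v0 d0 T := by
  constructor
  · intro hout
    rcases foot_exit h0 hT hk hs hout with ⟨_, h2⟩ | ⟨_, h2⟩ | ⟨b, h2, _⟩
    · rintro ⟨_, h3, _⟩
      rw [h2] at h3
      exact lt_irrefl _ h3
    · rintro ⟨_, _, h3⟩
      rw [h2] at h3
      exact lt_irrefl _ h3
    · exfalso
      obtain ⟨⟨a1, a2, a3, a4, a5⟩, ⟨b1, b2, b3, b4⟩, ⟨c1, c2, c3⟩, ⟨e1, e2⟩, f1⟩ := dirs_distinct d0 h0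
      rcases hd with hd | hd
      · rw [hd] at h2
        cases b
        · exact a2 h2.symm
        · exact a1 h2.symm
      · rw [hd] at h2
        cases b
        · exact c3 h2
        · exact b4 h2
  · exact fun h1 h2 => h1 (trap_sub v0 d0 T L h2)

/-- every word lives in a trapezoid. -/
lemma saw_trap' {v0 v d0 : Pt} {T : ℕ} {X : Set Pt} {t : List Bool} (h : Saw (strip v0 d0 T \ X) v d0 t) :
    ∃ L, Saw (trap v0 d0 T L \ X) v d0 t := by
  have key : ∀ n, n ≤ t.length → ∃ L : ℕ, ∀ i, 1 ≤ i → i ≤ n → ip (vx v d0 t i - v0) (rotL d0) < 3 * L ∧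
      ip (vx v d0 t i - v0) (rotR d0) < 3 * L := by
    intro n
    induction n with
    | zero => exact fun _ => ⟨0, fun i h1 h2 => by omega⟩
    | succ n ih =>
      intro hn
      obtain ⟨L, hL⟩ := ih (by omega)
      refine ⟨max L (max (ip (vx v d0 t (n + 1) - v0) (rotL d0)).toNat
        (ip (vx v d0 t (n + 1) - v0) (rotR d0)).toNat + 1), ?_⟩
      intro i h1 h2
      rcases Nat.lt_or_ge n i with h3 | h3
      · have : i = n + 1 := by omega
        rw [this]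
        push_cast
        constructor <;> omega
      · have := hL i h1 h3
        push_cast
        constructor <;> omega
  obtain ⟨L, hL⟩ := key t.length le_rfl
  exact ⟨L, ⟨fun i h1 h2 => ⟨⟨(h.mem i h1 h2).1, (hL i h1 h2).1, (hL i h1 h2).2⟩, (h.mem i h1 h2).2⟩, h.inj⟩⟩

/-- the general statement of convergence: families of walks from a foot that leave the domain upwards or
downwards. -/
lemma inc_out {v0 d0 : Pt} (h0 : d0 ∈ dirs) {T N : ℕ} (hT : 1 ≤ T) {k : ℤ} (hk : |k| < N) (X : Set Pt)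
    (R : List Bool → Prop) (hR : ∀ t, R t → dx d0 t t.length = d0 ∨ dx d0 t t.length = -d0) :
    Inc (fun n => {t | Saw (trap v0 d0 T (n + N) \ X) (foot v0 d0 k) d0 t ∧
      tip (foot v0 d0 k) d0 t ∉ trap v0 d0 T (n + N) ∧ R t})
      {t | Saw (strip v0 d0 T \ X) (foot v0 d0 k) d0 t ∧ tip (foot v0 d0 k) d0 t ∉ strip v0 d0 T ∧ R t} := by
  have hk' : ∀ n : ℕ, |k| < ((n + N : ℕ) : ℤ) := by
    intro n
    push_cast
    linarith
  constructor
  · rintro n m hnm t ⟨h1, h2, h3⟩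
    have h4 := (tip_iff h0 hT (hk' n) (h1.mono Set.sdiff_subset) (hR t h3)).1 h2
    exact ⟨h1.mono (Set.sdiff_subset_sdiff_left (trap_mono v0 d0 T (by omega))),
      fun h5 => h4 (trap_sub v0 d0 T _ h5), h3⟩
  · intro t
    constructor
    · rintro ⟨h1, h2, h3⟩
      obtain ⟨L, hL⟩ := saw_trap' h1
      exact ⟨L, hL.mono (Set.sdiff_subset_sdiff_left (trap_mono v0 d0 T (by omega))),
        fun h5 => h2 (trap_sub v0 d0 T _ h5), h3⟩
    · rintro ⟨n, h1, h2, h3⟩
      have h4 := (tip_iff h0 hT (hk' n) (h1.mono Set.sdiff_subset) (hR t h3)).1 h2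
      exact ⟨h1.mono (Set.sdiff_subset_sdiff_left (trap_sub v0 d0 T _)), h4, h3⟩

lemma inc_Br {v0 d0 : Pt} (h0 : d0 ∈ dirs) {T N : ℕ} (hT : 1 ≤ T) {k : ℤ} (hk : |k| < N) (X : Set Pt) :
    Inc (fun n => Br (trap v0 d0 T (n + N)) X (foot v0 d0 k) d0) (Br (strip v0 d0 T) X (foot v0 d0 k) d0) :=
  inc_out h0 hT hk X (fun t => dx d0 t t.length = d0) (fun _ h => Or.inl h)

lemma inc_Dn {v0 d0 : Pt} (h0 : d0 ∈ dirs) {T N : ℕ} (hT : 1 ≤ T) {k : ℤ} (hk : |k| < N) (X : Set Pt) :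
    Inc (fun n => Dn (trap v0 d0 T (n + N)) X (foot v0 d0 k) d0) (Dn (strip v0 d0 T) X (foot v0 d0 k) d0) :=
  inc_out h0 hT hk X (fun t => dx d0 t t.length = -d0) (fun _ h => Or.inr h)

lemma Inc.inter {P : ℕ → Set (List Bool)} {Q : Set (List Bool)} (h : Inc P Q) (R : Set (List Bool)) :
    Inc (fun n => P n ∩ R) (Q ∩ R) := by
  constructor
  · intro n m hnm t ht
    exact ⟨h.mono hnm ht.1, ht.2⟩
  · intro t
    constructor
    · rintro ⟨h1, h2⟩
      obtain ⟨n, hn⟩ := (h.union t).1 h1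
      exact ⟨n, hn, h2⟩
    · rintro ⟨n, h1, h2⟩
      exact ⟨(h.union t).2 ⟨n, h1⟩, h2⟩

lemma inc_DnL {v0 d0 : Pt} (h0 : d0 ∈ dirs) {T N : ℕ} (hT : 1 ≤ T) {k : ℤ} (hk : |k| < N) (X : Set Pt) :
    Inc (fun n => DnL (trap v0 d0 T (n + N)) X (foot v0 d0 k) d0) (DnL (strip v0 d0 T) X (foot v0 d0 k) d0) :=
  (inc_Dn h0 hT hk X).inter {t | 0 < cross d0 (tip (foot v0 d0 k) d0 t - foot v0 d0 k)}

lemma inc_DnR {v0 d0 : Pt} (h0 : d0 ∈ dirs) {T N : ℕ} (hT : 1 ≤ T) {k : ℤ} (hk : |k| < N) (X : Set Pt) :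
    Inc (fun n => DnR (trap v0 d0 T (n + N)) X (foot v0 d0 k) d0) (DnR (strip v0 d0 T) X (foot v0 d0 k) d0) :=
  (inc_Dn h0 hT hk X).inter {t | cross d0 (tip (foot v0 d0 k) d0 t - foot v0 d0 k) < 0}

lemma inc_Arc {v0 d0 : Pt} (h0 : d0 ∈ dirs) {T N : ℕ} (hT : 1 ≤ T) {k : ℤ} (hk : |k| < N) (w : Pt) (X : Set Pt) :
    Inc (fun n => Arc (trap v0 d0 T (n + N)) X (foot v0 d0 k) d0 w)
      (Arc (strip v0 d0 T) X (foot v0 d0 k) d0 w) :=
  (inc_Dn h0 hT hk X).inter {t | tip (foot v0 d0 k) d0 t = w}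

/-! lateral exits -/

/-- walks from v that leave Ω sideways and avoid X. -/
def Lat (Ω X : Set Pt) (b : Bool) (v d0 : Pt) : Set (List Bool) :=
  {t | Saw (Ω \ X) v d0 t ∧ tip v d0 t ∉ Ω ∧ dx d0 t t.length = turn b d0}

lemma lat_anti {Ω X Y : Set Pt} {b : Bool} {v d0 : Pt} (h : X ⊆ Y) : Lat Ω Y b v d0 ⊆ Lat Ω X b v d0 := by
  rintro t ⟨h1, h2, h3⟩
  exact ⟨h1.mono (Set.sdiff_subset_sdiff_right h), h2, h3⟩

lemma lat_sub {v0 d0 : Pt} (h0 : d0 ∈ dirs) {T L : ℕ} (hT : 1 ≤ T) {k : ℤ} (hk : |k| < L) (b : Bool)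
    (X : Set Pt) : Lat (trap v0 d0 T L) X b (foot v0 d0 k) d0 ⊆
      latS (foot v0 d0 k) d0 T b (3 * L + 3 * sgn b * k) := by
  rintro t ⟨h1, h2, h3⟩
  have h1' := h1.mono (Set.sdiff_subset (s := trap v0 d0 T L) (t := X))
  obtain ⟨k1, k2⟩ := abs_lt.1 hk
  have hfoot := ip_foot_turn h0 v0 k b
  rcases foot_exit h0 hT hk h1' h2 with ⟨hd, _⟩ | ⟨hd, _⟩ | ⟨b', hd, hi, hm, j, hj1, hj2, hj3⟩
  · exfalso
    obtain ⟨⟨a1, a2, a3, a4, a5⟩, ⟨b1, b2, b3, b4⟩, ⟨c1, c2, c3⟩, ⟨e1, e2⟩, f1⟩ := dirs_distinct d0 h0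
    rw [h3] at hd
    cases b
    · exact c3 hd.symm
    · exact b4 hd.symm
  · exfalso
    obtain ⟨⟨a1, a2, a3, a4, a5⟩, ⟨b1, b2, b3, b4⟩, ⟨c1, c2, c3⟩, ⟨e1, e2⟩, f1⟩ := dirs_distinct d0 h0
    rw [h3] at hd
    cases b
    · exact a2 hd
    · exact a1 hd
  · have hb : b' = b := by
      obtain ⟨⟨a1, a2, a3, a4, a5⟩, ⟨b1, b2, b3, b4⟩, ⟨c1, c2, c3⟩, ⟨e1, e2⟩, f1⟩ := dirs_distinct d0 h0
      rw [h3] at hd
      cases b <;> cases b'
      · rfl
      · exact absurd hd b1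
      · exact absurd hd.symm b1
      · rfl
    rw [hb] at hi
    refine ⟨?_, h3, ⟨j, hj1, hj2, ?_⟩, ?_, ?_⟩
    · rw [strip_foot]
      exact h1'.mono (trap_sub v0 d0 T L)
    · rw [ip_sub_sub _ v0 (foot v0 d0 k) d0, ip_foot, sub_zero, hj3]
    · intro i hi'
      rcases Nat.eq_zero_or_pos i with hz | hp
      · rw [hz]
        show ip (foot v0 d0 k - foot v0 d0 k) (turn b d0) < _
        rw [sub_self]
        have : ip (0 : Pt) (turn b d0) = 0 := by
          simp [ip]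
        rw [this]
        cases b
        · simp only [sgn, Bool.false_eq_true, if_false]
          linarith
        · simp only [sgn, if_true]
          linarith
      · have h4 := trap_lt (h1'.mem i hp hi') b
        rw [ip_sub_sub _ v0 (foot v0 d0 k) _, hfoot]
        linarith
    · rw [ip_sub_sub _ v0 (foot v0 d0 k) _, hfoot, hi]
      ring

/-- the lateral exits disappear. -/
lemma lat_tendsto {v0 d0 : Pt} (h0 : d0 ∈ dirs) {T N : ℕ} (hT : 1 ≤ T) {k : ℤ} (hk : |k| < N) (b : Bool)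
    (X : Set Pt) : Tendsto (fun n => gf (Lat (trap v0 d0 T (n + N)) X b (foot v0 d0 k) d0)) atTop (𝓝 0) := by
  have hk' : ∀ n : ℕ, |k| < ((n + N : ℕ) : ℤ) := by
    intro n
    push_cast
    linarith
  have h1 := latS_zero (v0 := foot v0 d0 k) h0 hT b
    (fun n : ℕ => 3 * ((n + N : ℕ) : ℤ) + 3 * sgn b * k) (by
      intro n m hnm
      simp only at hnm
      push_cast at hnm
      omega)
  exact tendsto_of_tendsto_of_tendsto_of_le_of_le tendsto_const_nhds h1 (fun _ => zero_le)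
    (fun n => gf_mono (lat_sub h0 hT (hk' n) b X))

end HexW
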