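import Pool.Agent.HexW.Box

set_option autoImplicit false

namespace HexW

open Complex Finset ENNReal Filter Topology HexObs

/-- the trapezoid is a good domain seen from every foot of its base. -/
lemma trap_good_foot {v0 d0 : Pt} (h0 : d0 ∈ dirs) {T L : ℕ} (hT : 1 ≤ T) {k : ℤ} (hk : |k| < L) :
    GoodDom (trapF (v0 := v0) h0 T L) (foot v0 d0 k) d0 := by
  have hmem : ∀ v, v ∈ trapF (v0 := v0) h0 T L ↔ v ∈ trap v0 d0 T L := by
    intro v
    rw [← Finset.mem_coe, trapF_coe]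
  refine ⟨h0, ?_, ?_⟩
  · intro v hv
    rw [hmem] at hv
    rw [ip_sub_sub v v0 (foot v0 d0 k) d0, ip_foot, sub_zero]
    exact hv.1.2.1
  · intro t ht v hv
    rw [hmem] at hv
    obtain ⟨harr, hout⟩ := mem_exits.1 ht
    have hs : Saw (trap v0 d0 T L) (foot v0 d0 k) d0 t := by
      rw [← trapF_coe (v0 := v0) h0]
      exact saw_coe.2 harr
    rw [hmem] at hout
    rcases foot_exit h0 hT hk hs hout with ⟨h1, h2⟩ | ⟨h1, h2⟩ | ⟨b, h1, h2, _⟩
    · rw [h1, ip_neg_right, ip_sub_sub _ v0 v d0, h2]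
      have := hv.1.2.1
      linarith
    · rw [h1, ip_sub_sub _ v0 v d0, h2]
      have := hv.1.2.2
      linarith
    · rw [h1, ip_sub_sub _ v0 v _, h2]
      have := trap_lt hv b
      linarith

/-- top bridges have total weight at most one. -/
lemma gf_Br_le_one {v0 d0 : Pt} (h0 : d0 ∈ dirs) {T : ℕ} (_ : 1 ≤ T) (k : ℤ) (X : Set Pt) :
    gf (Br (strip v0 d0 T) X (foot v0 d0 k) d0) ≤ BT T := by
  rw [← gf_B h0 (foot v0 d0 k) T]
  apply gf_mono
  rintro t ⟨h1, h2, h3⟩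
  rw [strip_foot]
  exact ⟨h1.mono Set.sdiff_subset, h2, h3⟩

lemma gf_Br_trap_le {v0 d0 : Pt} (h0 : d0 ∈ dirs) {T L : ℕ} (hT : 1 ≤ T) {k : ℤ} (hk : |k| < L) (X : Set Pt) :
    gf (Br (trap v0 d0 T L) X (foot v0 d0 k) d0) ≤ BT T := by
  refine le_trans ?_ (gf_Br_le_one (v0 := v0) h0 hT k X)
  apply gf_mono
  rintro t ⟨h1, h2, h3⟩
  exact ⟨h1.mono (Set.sdiff_subset_sdiff_left (trap_sub v0 d0 T L)),
    (tip_iff h0 hT hk (h1.mono Set.sdiff_subset) (Or.inl h3)).1 h2, h3⟩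

/-- the sum over bridges of a bounded function. -/
lemma overBr_le {Ω : Set Pt} {v d0 : Pt} {F : Set Pt → ℝ≥0∞} {c B : ℝ≥0∞} (hF : ∀ Y, F Y ≤ c)
    (hB : ∀ Y, gf (Br Ω Y v d0) ≤ B) (X : Set Pt) : overBr Ω v d0 F X ≤ c * B := by
  calc overBr Ω v d0 F X ≤ overBr Ω v d0 (fun _ => c * 1) X := overBr_mono (fun Y => by rw [mul_one]; exact hF Y) X
    _ = c * overBr Ω v d0 (fun _ => 1) X := overBr_const_mul Ω v d0 c (fun _ => 1) X
    _ = c * gf (Br Ω X v d0) := by rw [overBr_one]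
    _ ≤ c * B := mul_le_mul_right (hB X) c

end HexW
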