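import Pool.Agent.HexObs.Strip3

set_option autoImplicit false

namespace HexW

open Complex Finset ENNReal Filter Topology HexObs

/-- walks in the strip whose last step crosses the line number m of direction b for the first time. -/
def latS (v0 d0 : Pt) (T : ℕ) (b : Bool) (m : ℤ) : Set (List Bool) :=
  {t | Saw (strip v0 d0 T) v0 d0 t ∧ dx d0 t t.length = turn b d0 ∧
    (∃ j : ℕ, 1 ≤ j ∧ j ≤ T ∧ ip (tip v0 d0 t - v0) d0 = 3 * j) ∧
    (∀ i, i ≤ t.length → ip (vx v0 d0 t i - v0) (turn b d0) < m) ∧ ip (tip v0 d0 t - v0) (turn b d0) = m}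

lemma latS_sum {v0 d0 : Pt} (h0 : d0 ∈ dirs) {T : ℕ} (hT : 1 ≤ T) (b : Bool) (f : ℕ → ℤ)
    (hf : Function.Injective f) : ∑' L, gf (latS v0 d0 T b (f L)) ≠ ∞ := by
  classical
  have hdisj : Set.univ.PairwiseDisjoint (fun L => latS v0 d0 T b (f L)) := by
    intro L _ L' _ hne
    show Disjoint _ _
    rw [Set.disjoint_left]
    intro t ht ht'
    exact hne (hf (ht.2.2.2.2.symm.trans ht'.2.2.2.2))
  have hsum : ∑' L, gf (latS v0 d0 T b (f L)) = gf (⋃ L, latS v0 d0 T b (f L)) := by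
    unfold gf
    exact (ENNReal.tsum_biUnion hdisj).symm
  rw [hsum]
  set U := ⋃ L, latS v0 d0 T b (f L) with hU
  have hcover : U ⊆ ⋃ j ∈ Finset.range (T + 1), {t | t ∈ U ∧ ip (tip v0 d0 t - v0) d0 = 3 * (j : ℤ)} := by
    intro t ht
    have ht' := ht
    rw [hU, Set.mem_iUnion] at ht'
    obtain ⟨L, hL⟩ := ht'
    obtain ⟨_, _, ⟨j, hj1, hj2, hj3⟩, _⟩ := hL
    simp only [Set.mem_iUnion]
    exact ⟨j, Finset.mem_range.2 (by omega), ht, hj3⟩
  have hle : gf U ≤ ∑ j ∈ Finset.range (T + 1), gf {t | t ∈ U ∧ ip (tip v0 d0 t - v0) d0 = 3 * (j : ℤ)} :=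
    (gf_mono hcover).trans (ENNReal.tsum_biUnion_le wE _ _)
  refine ne_top_of_le_ne_top ?_ hle
  apply ENNReal.sum_ne_top.2
  intro j _
  have hbound : gf {t | t ∈ U ∧ ip (tip v0 d0 t - v0) d0 = 3 * (j : ℤ)} ≤
      ENNReal.ofReal ((xc ^ (2 * (T - j) + 1))⁻¹) * gf (out (strip v0 d0 T) v0 d0 d0) := by
    apply gf_le_of_inj (fun t => t ++ zig b (T - j))
    · rintro t ⟨ht, hj⟩
      rw [hU, Set.mem_iUnion] at ht
      obtain ⟨L, hL1, hL2, ⟨j', hj1, hj2, hj3⟩, hL4, hL5⟩ := ht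
      have hjj : j' = j := by
        rw [hj3] at hj
        omega
      rw [hjj] at hj1 hj2
      apply zig_out h0 b T (T - j) t hL1 hL2
      · intro i hi'
        rw [hL5]
        exact hL4 i hi'
      · rw [hj, Nat.cast_sub hj2]
        ring
      · rw [hj]
        have : (1 : ℤ) ≤ j := by exact_mod_cast hj1
        linarith
    · intro t _ s _ hts
      exact List.append_cancel_right hts
    · intro t _
      rw [wE_append]
      have e1 : wE (zig b (T - j)) = ENNReal.ofReal (xc ^ (2 * (T - j) + 1)) := by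
        unfold wE
        rw [zig_length]
      rw [e1, mul_comm (wE t), ← mul_assoc, ← ENNReal.ofReal_mul (by
        have := xc_pos
        positivity), inv_mul_cancel₀ (pow_ne_zero _ xc_pos.ne'), ENNReal.ofReal_one, one_mul]
  refine ne_top_of_le_ne_top ?_ hbound
  apply ENNReal.mul_ne_top ENNReal.ofReal_ne_top
  exact ne_top_of_le_ne_top ENNReal.one_ne_top (gf_top_le_one h0 hT)

/-- the weight of the lateral walks goes to zero. -/
lemma latS_zero {v0 d0 : Pt} (h0 : d0 ∈ dirs) {T : ℕ} (hT : 1 ≤ T) (b : Bool) (f : ℕ → ℤ)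
    (hf : Function.Injective f) : Tendsto (fun L => gf (latS v0 d0 T b (f L))) atTop (𝓝 0) :=
  ENNReal.tendsto_atTop_zero_of_tsum_ne_top (latS_sum h0 hT b f hf)

end HexW
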