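import Pool.Agent.HexW.Lat
import Pool.Agent.HexObs.WDefs

set_option autoImplicit false

namespace HexW

open Complex Finset ENNReal Filter Topology HexObs

/-- monotone convergence for sums. -/
lemma tsum_iSup_mono {α : Type*} (f : ℕ → α → ℝ≥0∞) (hf : Monotone f) :
    ∑' a, ⨆ n, f n a = ⨆ n, ∑' a, f n a := by
  simp_rw [ENNReal.tsum_eq_iSup_sum]
  rw [iSup_comm]
  congr 1
  funext s
  exact ENNReal.finsetSum_iSup_of_monotone (fun a => fun n m h => hf h a)

lemma gf_indicator (P : Set (List Bool)) : gf P = ∑' t : List Bool, P.indicator wE t := by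
  unfold gf
  exact tsum_subtype P wE

/-- P is increasing with union Q. -/
structure Inc (P : ℕ → Set (List Bool)) (Q : Set (List Bool)) : Prop where
  mono : Monotone P
  union : ∀ t, t ∈ Q ↔ ∃ n, t ∈ P n

/-- F is increasing with supremum G. -/
structure Up (F : ℕ → Set Pt → ℝ≥0∞) (G : Set Pt → ℝ≥0∞) : Prop where
  mono : Monotone F
  sup : ∀ Y, G Y = ⨆ n, F n Y

lemma Inc.ind {P : ℕ → Set (List Bool)} {Q : Set (List Bool)} (h : Inc P Q) (f : ℕ → List Bool → ℝ≥0∞)
    (hf : Monotone f) (t : List Bool) :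
    Q.indicator (fun t => ⨆ n, f n t) t = ⨆ n, (P n).indicator (f n) t := by
  classical
  by_cases ht : t ∈ Q
  · rw [Set.indicator_of_mem ht]
    obtain ⟨n, hn⟩ := (h.union t).1 ht
    apply le_antisymm
    · apply iSup_le
      intro m
      refine le_trans ?_ (le_iSup _ (max n m))
      rw [Set.indicator_of_mem (h.mono (le_max_left n m) hn)]
      exact hf (le_max_right n m) t
    · apply iSup_le
      intro m
      refine le_trans ?_ (le_iSup _ m)
      exact Set.indicator_le_self _ _ t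
  · rw [Set.indicator_of_notMem ht]
    symm
    rw [ENNReal.iSup_eq_zero]
    intro m
    apply Set.indicator_of_notMem
    intro hm
    exact ht ((h.union t).2 ⟨m, hm⟩)

lemma Inc.ind_mono {P : ℕ → Set (List Bool)} {Q : Set (List Bool)} (h : Inc P Q) (f : ℕ → List Bool → ℝ≥0∞)
    (hf : Monotone f) : Monotone (fun n => (P n).indicator (f n)) := by
  classical
  intro n m hnm t
  show (P n).indicator (f n) t ≤ (P m).indicator (f m) t
  by_cases ht : t ∈ P n
  · rw [Set.indicator_of_mem ht, Set.indicator_of_mem (h.mono hnm ht)]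
    exact hf hnm t
  · rw [Set.indicator_of_notMem ht]
    exact zero_le

lemma Inc.gf_eq {P : ℕ → Set (List Bool)} {Q : Set (List Bool)} (h : Inc P Q) : gf Q = ⨆ n, gf (P n) := by
  rw [gf_indicator]
  simp_rw [gf_indicator]
  rw [← tsum_iSup_mono _ (h.ind_mono (fun _ => wE) monotone_const)]
  apply tsum_congr
  intro t
  rw [← h.ind (fun _ => wE) monotone_const t]
  simp

lemma Inc.gf_mono {P : ℕ → Set (List Bool)} {Q : Set (List Bool)} (h : Inc P Q) : Monotone (fun n => gf (P n)) :=
  fun _ _ hnm => HexObs.gf_mono (h.mono hnm)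

lemma Up.tendsto {F : ℕ → Set Pt → ℝ≥0∞} {G : Set Pt → ℝ≥0∞} (h : Up F G) (X : Set Pt) :
    Tendsto (fun n => F n X) atTop (𝓝 (G X)) := by
  rw [h.sup X]
  exact tendsto_atTop_iSup (fun n m hnm => h.mono hnm X)

/-- generating functions converge. -/
lemma up_gf {P : ℕ → Set Pt → Set (List Bool)} {Q : Set Pt → Set (List Bool)}
    (h : ∀ X, Inc (fun n => P n X) (Q X)) : Up (fun n X => gf (P n X)) (fun X => gf (Q X)) :=
  ⟨fun _ _ hnm X => (h X).gf_mono hnm, fun Y => (h Y).gf_eq⟩

/-- sums over bridges converge. -/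
lemma up_overBr {Om : ℕ → Set Pt} {Ω : Set Pt} {v d0 : Pt}
    (h : ∀ X, Inc (fun n => Br (Om n) X v d0) (Br Ω X v d0)) {F : ℕ → Set Pt → ℝ≥0∞} {G : Set Pt → ℝ≥0∞}
    (hF : Up F G) : Up (fun n => overBr (Om n) v d0 (F n)) (overBr Ω v d0 G) := by
  have hm : ∀ X : Set Pt, Monotone (fun (n : ℕ) (s : List Bool) => wE s * F n (X ∪ vis v d0 s)) := by
    intro X n m hnm s
    exact mul_le_mul_right (hF.mono hnm _) _
  constructor
  · intro n m hnm X
    unfold overBr
    apply ENNReal.tsum_le_tsum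
    intro s
    exact (h X).ind_mono _ (hm X) hnm s
  · intro X
    unfold overBr
    rw [← tsum_iSup_mono _ ((h X).ind_mono _ (hm X))]
    apply tsum_congr
    intro s
    rw [← (h X).ind _ (hm X) s]
    congr 1
    funext s
    rw [hF.sup, ENNReal.mul_iSup]

end HexW
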