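import Pool.Agent.HexW.Good

set_option autoImplicit false

namespace HexW

open Complex Finset ENNReal Filter Topology HexObs

/-! translations -/

lemma vx_trans (v c d0 : Pt) (t : List Bool) (i : ℕ) : vx (v + c) d0 t i = vx v d0 t i + c := by
  induction i with
  | zero => rfl
  | succ i ih =>
    rw [vx_succ, vx_succ, ih]
    abel

lemma tip_trans (v c d0 : Pt) (t : List Bool) : tip (v + c) d0 t = tip v d0 t + c := vx_trans v c d0 t _

lemma saw_trans (Ω : Set Pt) (v c d0 : Pt) (t : List Bool) :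
    Saw Ω (v + c) d0 t ↔ Saw ((fun p => p + c) ⁻¹' Ω) v d0 t := by
  constructor
  · intro h
    refine ⟨fun i h1 h2 => ?_, fun i k h1 h2 h3 => ?_⟩
    · have := h.mem i h1 h2
      rw [vx_trans] at this
      exact this
    · apply h.inj i k h1 h2
      rw [vx_trans, vx_trans, h3]
  · intro h
    refine ⟨fun i h1 h2 => ?_, fun i k h1 h2 h3 => ?_⟩
    · rw [vx_trans]
      exact h.mem i h1 h2
    · rw [vx_trans, vx_trans] at h3
      exact h.inj i k h1 h2 (add_right_cancel h3)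

lemma Br_trans (Ω X : Set Pt) (v c d0 : Pt) :
    Br Ω X (v + c) d0 = Br ((fun p => p + c) ⁻¹' Ω) ((fun p => p + c) ⁻¹' X) v d0 := by
  ext t
  unfold Br
  simp only [Set.mem_ofPred_eq]
  rw [saw_trans, tip_trans]
  rfl

lemma vis_trans (v c d0 : Pt) (t : List Bool) : (fun p => p + c) ⁻¹' (vis (v + c) d0 t) = vis v d0 t := by
  ext p
  unfold vis
  simp only [Set.mem_preimage, Set.mem_ofPred_eq]
  constructor
  · rintro ⟨i, h1, h2, h3⟩
    rw [vx_trans] at h3
    exact ⟨i, h1, h2, add_right_cancel h3⟩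
  · rintro ⟨i, h1, h2, h3⟩
    refine ⟨i, h1, h2, ?_⟩
    rw [vx_trans, h3]

lemma overBr_trans (Ω : Set Pt) (v c d0 : Pt) {F G : Set Pt → ℝ≥0∞}
    (hFG : ∀ Y, F Y = G ((fun p => p + c) ⁻¹' Y)) (X : Set Pt) :
    overBr Ω (v + c) d0 F X = overBr ((fun p => p + c) ⁻¹' Ω) v d0 G ((fun p => p + c) ⁻¹' X) := by
  unfold overBr
  rw [Br_trans]
  apply tsum_congr
  intro s
  congr 1
  funext s
  rw [hFG, Set.preimage_union, vis_trans]

lemma strip_trans (v0 d0 : Pt) (T : ℕ) (k : ℤ) : (fun p => p + k • hz d0) ⁻¹' (strip v0 d0 T) = strip v0 d0 T := by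
  ext p
  unfold strip IsHex
  simp only [Set.mem_preimage, Set.mem_ofPred_eq]
  have e : p + k • hz d0 - v0 = (p - v0) + k • hz d0 := by abel
  have e2 : cl (p + k • hz d0) = cl p := by
    rw [cl_add, cl_smul, cl_hz, mul_zero, add_zero]
  have e3 : ip (p + k • hz d0 - v0) d0 = ip (p - v0) d0 := by
    rw [e, ip_add_left, ip_smul_left, ip_hz, mul_zero, add_zero]
  rw [e2, e3]

lemma foot_add (v0 d0 : Pt) (a k : ℤ) : foot v0 d0 (a + k) = foot v0 d0 a + k • hz d0 := by
  unfold foot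
  rw [add_smul]
  abel

/-- the weight of the pairs of bridges is invariant under translations. -/
lemma P2_trans (v0 d0 : Pt) (T : ℕ) (a b k : ℤ) :
    P2 (strip v0 d0 T) v0 d0 (a + k) (b + k) ∅ = P2 (strip v0 d0 T) v0 d0 a b ∅ := by
  unfold P2
  rw [foot_add, foot_add]
  rw [overBr_trans (strip v0 d0 T) (foot v0 d0 a) (k • hz d0) d0
    (G := fun Y => gf (Br (strip v0 d0 T) Y (foot v0 d0 b) d0)), strip_trans, Set.preimage_empty]
  intro Y
  rw [Br_trans, strip_trans]

end HexW
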